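import Pool.Agent.Helper18.UW.GoalsR

/-! Project UW, packet U4: loads of consecutive rows before the natural values. -/

set_option autoImplicit false

namespace Pool.Agent.Helper79.UW

open Finset
open Pool.Agent.Lead.Sh
open Pool.Agent.Helper43.Hw (T na va lz Play aa ac sc oo sk U Dd Sd Pn nx bb np)
open Pool.Agent.Helper43.Gm (Pri st mv nn)
open Pool.Agent.Helper18.EW
open Pool.Agent.Helper18.UW

section

variable {m : ℕ → ℕ} {R N : ℕ} {κ x : ℕ → ℕ}

theorem uz_eq (hP : UPlay m R N κ x) {z : ℕ} (hz : z < R)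
    (h0 : ∀ c, κ z ≤ c → c < N → na (m c) R z = 0) :
    uz m R N κ x z = ∑ c ∈ range (κ z), va (m c) R κ x c z + x z := by
  have hle := hP.le z hz
  rcases Nat.lt_or_ge (κ z) N with hκ | hκ
  · obtain ⟨f, hf⟩ : ∃ f, N = κ z + 1 + f := ⟨N - (κ z + 1), by omega⟩
    unfold uz
    rw [hf, sum_range_add, sum_range_succ]
    have h1 : va (m (κ z)) R κ x (κ z) z = x z := by
      unfold va nn
      simp
    have h2 : ∑ i ∈ range f, va (m (κ z + 1 + i)) R κ x (κ z + 1 + i) z = 0 := by
      refine sum_eq_zero fun i hi => ?_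
      rw [mem_range] at hi
      unfold va
      rw [if_pos (by omega)]
      exact h0 _ (by omega) (by omega)
    rw [h1, h2, add_zero]
  · have he : κ z = N := by omega
    have hx := hP.fin z hz he
    unfold uz
    rw [he, hx, add_zero]

theorem step_sum (h1 : GoalU1) (hm : ∀ c < N, 1 ≤ m c ∧ m c + 2 ≤ R) (hR : 2 ≤ R)
    (hP : UPlay m R N κ x) {y : ℕ} (hy : y + 1 < R) :
    ∑ c ∈ range (κ y), va (m c) R κ x c (y + 1) + uo m R κ x y + us m κ x y =
      ∑ c ∈ range (κ y), va (m c) R κ x c y := by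
  have h7 := (h1 m R N κ x hm hR hP).2.2.2.2.2.2.1 y hy
  have e1 : uo m R κ x y = ∑ c ∈ range (κ y), (if 0 < va (m c) R κ x c y then 1 else 0) := by
    unfold uo
    rw [card_filter]
  have e2 : us m κ x y = ∑ c ∈ range (κ y),
      ((range y).filter (fun t => κ t = c ∧ 0 < x t ∧ m c + t = x t + y)).card := by
    unfold us
    rw [card_eq_sum_card_fiberwise (f := κ) (t := range (κ y))]
    · refine sum_congr rfl fun c hc => ?_
      rw [mem_range] at hc
      rw [filter_filter]
      congr 1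
      ext t
      simp only [mem_filter]
      constructor
      · rintro ⟨a, ⟨b1, b2, b3⟩, d⟩
        rw [d] at b3
        exact ⟨a, d, b2, b3⟩
      · rintro ⟨a, d, b2, b3⟩
        refine ⟨a, ⟨by omega, b2, ?_⟩, d⟩
        rw [d]
        exact b3
    · intro t ht
      have ht' := (mem_filter.1 ht).2.1
      exact mem_range.2 ht'
  rw [e1, e2, ← sum_add_distrib, ← sum_add_distrib]
  refine sum_congr rfl fun c hc => ?_
  rw [mem_range] at hc
  obtain ⟨a, b⟩ := h7 c hc
  split_ifs with h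
  · exact a h
  · obtain ⟨b1, b2⟩ := b (by omega)
    rw [b1, b2]
    omega

theorem κ_step (h1 : GoalU1) (hm : ∀ c < N, 1 ≤ m c ∧ m c + 2 ≤ R) (hR : 2 ≤ R)
    (hP : UPlay m R N κ x) {y : ℕ} (hy : y + 1 < R) :
    ∑ c ∈ range (κ (y + 1)), va (m c) R κ x c (y + 1) + ∑ c ∈ range (κ y), m c =
      ∑ c ∈ range (κ y), va (m c) R κ x c (y + 1) + ∑ c ∈ range (κ (y + 1)), m c := by
  obtain ⟨h11, -, -, h14, -⟩ := h1 m R N κ x hm hR hP
  have hle := hP.le (y + 1) hy
  rw [← sum_range_add_sum_Ico _ (hP.mono y hy), ← sum_range_add_sum_Ico m (hP.mono y hy)]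
  have : ∑ c ∈ Ico (κ y) (κ (y + 1)), va (m c) R κ x c (y + 1) =
      ∑ c ∈ Ico (κ y) (κ (y + 1)), m c := by
    refine sum_congr rfl fun c hc => ?_
    rw [mem_Ico] at hc
    have a1 := (h11 c y (by omega)).1.1 hc.1
    have a2 : ¬ (y + 1 < sc R κ c) := by
      intro h
      have := (h11 c (y + 1) hy).1.2 h
      omega
    have a3 : sc R κ c = y + 1 := by omega
    have := h14 c (by omega) (by omega)
    rwa [a3] at this
  rw [this]
  omega

end

/-- U4. -/
theorem goalU4 (h1 : GoalU1) : GoalU4 := by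
  intro m R N κ x hm hR hP y hy h0
  have s1 := step_sum h1 hm hR hP hy
  have s2 := κ_step h1 hm hR hP hy
  have hmo := hP.mono y hy
  have e1 := uz_eq hP (z := y) (by omega) (fun c hc hcN => by
    have := h0 c hc hcN
    unfold na at this ⊢
    omega)
  have e2 := uz_eq hP (z := y + 1) hy (fun c hc hcN => h0 c (by omega) hcN)
  rw [e1, e2]
  omega

end Pool.Agent.Helper79.UW
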